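import Pool.Agent.Helper10.CSB.Q3
import Pool.Agent.Helper50.CSB.G0

/-!
# The ribbon with three blocks, and the base case of `tauk`
-/

namespace H50R

open H45C Equiv MvPolynomial

variable {α : Type*} [DecidableEq α]

/-- three blocks, from `rib_pos` -/
theorem R3_pos {X A B C : Finset α} (hAB : A ⊆ B) (hBC : B ⊆ C) {a b c : ℤ} (ha : 1 ≤ a)
    (hb : 1 ≤ b) (hc : 1 ≤ c) (h1 : (((C \ B) ∩ X).card : ℤ) ≤ b)
    (h2 : b = 1 → (((C \ A) ∩ X).card : ℤ) ≤ a + 1)
    (h3 : b ≠ 1 → (((B \ A) ∩ X).card : ℤ) ≤ a) {z : Wd α} (hz : z ∈ WS X) (hn : WN z) :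
    WN (R3 A B C a b c z) := by
  have w1 : WF X [((B, b) : Bl α), (C, c)] := by
    refine ⟨hBC, hb, ?_, trivial⟩
    show (((C \ B) ∩ X).card : ℤ) ≤ b + ((0 : ℕ) : ℤ)
    push_cast
    omega
  have w2 : WF X [((A, a) : Bl α), (B, b), (C, c)] := by
    refine ⟨?_, ha, ?_, w1⟩
    · show A ⊆ (if b = 1 then C else B)
      split_ifs
      · exact hAB.trans hBC
      · exact hAB
    · show ((((if b = 1 then C else B) \ A) ∩ X).card : ℤ) ≤
        a + ((if b = 1 then 0 + 1 else 0 : ℕ) : ℤ)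
      by_cases hb1 : b = 1
      · rw [if_pos hb1, if_pos hb1]
        have := h2 hb1
        push_cast
        omega
      · rw [if_neg hb1, if_neg hb1]
        have := h3 hb1
        push_cast
        omega
  have h := rib_pos w2 hc hz hn
  rw [rib_cons, rib_cons, rib_single, rib_cons, rib_single, rib_single, rib_single] at h
  have e : (Hop A a * (Hop B b * Hop C c - Hop B (b + c)) -
      (Hop A (a + b) * Hop C c - Hop A (a + b + c))) z = R3 A B C a b c z := by
    unfold R3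
    simp only [LinearMap.sub_apply, Module.End.mul_apply, map_sub]
    abel
  rw [← e]
  exact h

/-- the base case (`C = B` on `X`) -/
theorem tau_one {X A B : Finset α} {q : α} (hqA : q ∈ A) (hAB : A ⊆ B) (hq : q ∈ X) (k : ℤ)
    {z : Wd α} (hz : z ∈ WS X) :
    rho X A B q k 1 (Hop (B.erase q) 1 z) - rho X A B q k 2 z = R3 A B B k 1 1 z := by
  rw [rho_one hqA hAB hq k (Hop_mem _ _ hz)]
  have i1 := Hop_id1 hqA hAB hq (k + 2) hz
  have i2 := Hop_id1 (hAB hqA) (Finset.Subset.refl B) hq 2 hz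
  rw [Finset.sdiff_self, Finset.empty_inter, Finset.sum_empty, add_zero] at i2
  have c1 : k + 2 - 1 = k + 1 := by ring
  have c2 : (2 : ℤ) - 1 = 1 := by norm_num
  have c3 : (1 : ℤ) + 1 = 2 := by norm_num
  have c4 : k + 1 + 1 = k + 2 := by ring
  rw [c1] at i1
  rw [c2] at i2
  unfold rho R3
  rw [c1, c3, c4, i1, i2]
  simp only [map_add, map_sub]
  abel

end H50R
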