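import Pool.Agent.Helper10.CSB.G1p
import Pool.Agent.Helper87.CSB.G1a

/-!
# Positivity of `tauk`: the first letter is not in `A`
-/

namespace H50R

open H45C Equiv

variable {α : Type*} [DecidableEq α]

section headb

variable {Y A B C : Finset α} {q h E : α}

theorem rl_sw2 (a b : α) (z : Wd α) : rl (swap a b) (rl (swap b a) z) = z := by
  rw [rl_rl, swap_comm a b, swap_mul_self, rl_one]

/-- the first letter is not in `C` -/
theorem tau_head_o {n : ℕ} (ih : TauIH n α) (hh : h ∉ Y) (hYc : Y.card = n) (hqA : q ∈ A)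
    (hAB : A ⊆ B) (hBC : B ⊆ C) (hq : q ∈ Y) (hhC : h ∉ C) {k : ℤ}
    (hk : (((B \ A) ∩ insert h Y).card : ℤ) + 1 ≤ k) (h1 : ((B \ A) ∩ insert h Y).card ≤ 1)
    (h2 : ((C \ B) ∩ insert h Y).card ≤ 1) {z : Wd α} (hz : z ∈ WS Y) (hn : WN z)
    (hE : E ∈ insert h Y) : WN (pr E (tauk (insert h Y) A B C q k (cns h z))) := by
  have hhB : h ∉ B := fun h' => hhC (hBC h')
  have hy : Hop (C.erase q) 1 z ∈ WS Y := Hop_mem _ _ hz
  have hsub : Y ⊆ insert h Y := Finset.subset_insert _ _
  rw [tau_pr hh hqA hAB hBC hq k hz hE, if_neg hhC, add_zero]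
  rcases Finset.mem_insert.1 hE with rfl | hEY
  · have hhs : E ∉ B \ A := fun h' => hhB (Finset.mem_sdiff.1 h').1
    rw [rp_self hh hqA hAB hq hhs k 2 hy, rp_self hh hqA hAB hq hhs k 3 hz]
    have g1 := card_le3 (A := A) (B := B) hsub
    have g2 := card_le3 (A := B) (B := C) hsub
    exact ih Y hYc A B C q k hqA hAB hBC hq (by omega) (by omega) (by omega) z hz hn
  · rw [rp_o hh hqA hAB hq hEY hhB k 2 hy, rp_o hh hqA hAB hq hEY hhB k 3 hz, sub_zero]
    exact WN.zero

/-- the first letter is in `C \ B` -/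
theorem tau_head_c {n : ℕ} (ih : TauIH n α) (hh : h ∉ Y) (hYc : Y.card = n) (hqA : q ∈ A)
    (hAB : A ⊆ B) (hBC : B ⊆ C) (hq : q ∈ Y) (hhC : h ∈ C) (hhB : h ∉ B) {k : ℤ}
    (hk : (((B \ A) ∩ insert h Y).card : ℤ) + 1 ≤ k) (h1 : ((B \ A) ∩ insert h Y).card ≤ 1)
    (h2 : ((C \ B) ∩ insert h Y).card ≤ 1) {z : Wd α} (hz : z ∈ WS Y) (hn : WN z)
    (hE : E ∈ insert h Y) : WN (pr E (tauk (insert h Y) A B C q k (cns h z))) := by
  have hy : Hop (C.erase q) 1 z ∈ WS Y := Hop_mem _ _ hz
  have hsub : Y ⊆ insert h Y := Finset.subset_insert _ _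
  have hhq : h ≠ q := ne3 hh hq
  have hqX : q ∈ insert h Y := Finset.mem_insert_of_mem hq
  have hv : rl (swap q h) z ∈ WS ((insert h Y).erase q) := swap_mem hh hq hz
  have hnv : WN (rl (swap q h) z) := WN_rl _ hn
  have hq' : q ∉ (insert h Y).erase q := Finset.notMem_erase _ _
  have hXq : insert q ((insert h Y).erase q) = insert h Y := Finset.insert_erase hqX
  have hk0 : (0 : ℤ) ≤ k := by omega
  rw [tau_pr hh hqA hAB hBC hq k hz hE, if_pos hhC]
  rcases Finset.mem_insert.1 hE with rfl | hEY
  · have hhs : E ∉ B \ A := fun h' => hhB (Finset.mem_sdiff.1 h').1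
    rw [rp_self hh hqA hAB hq hhs k 2 hy, rp_self hh hqA hAB hq hhs k 3 hz, if_pos hhC, add_zero]
    have g1 := card_le3 (A := A) (B := B) hsub
    have g2 := card_le3 (A := B) (B := C) hsub
    have p1 := ih Y hYc A B C q k hqA hAB hBC hq (by omega) (by omega) (by omega) z hz hn
    have e1 := rp_q_O (E := E) hq' hqA hAB (Finset.mem_erase.2 ⟨hhq, Finset.mem_insert_self _ _⟩)
      hhB k 2 hv
    rw [hXq, rl_sw2] at e1
    rw [e1]
    exact WN.add p1 (WN_Hop3 A (k - 1) (Hop_mem (B.erase q) 2 hz) (WN_Hop3 _ _ hz hn))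
  · rw [rp_o hh hqA hAB hq hEY hhB k 2 hy, rp_o hh hqA hAB hq hEY hhB k 3 hz, sub_zero, zero_add]
    by_cases hEq : E = q
    · subst hEq
      have e1 := rp_q_self hq' hqA hAB k 2 hv
      rw [hXq] at e1
      rw [e1, if_pos (hBC (hAB hqA)), add_zero]
      have g := card_le3 (A := A) (B := B) (Finset.erase_subset E (insert h Y))
      exact two_er hAB (Finset.notMem_erase _ _) hk0 (by norm_num) (by omega) hv hnv
    · have hEv : E ∈ (insert h Y).erase q := Finset.mem_erase.2 ⟨hEq, hE⟩
      by_cases hEA : E ∈ A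
      · have e1 := rp_q_A hq' hqA hAB hEv hEA k 2 hv
        rw [hXq] at e1
        rw [e1, if_pos (hBC (hAB hEA)), add_zero]
        exact WN.zero
      · have hu : rl (swap E q) (rl (swap q h) z) ∈ WS ((insert h Y).erase E) := by
          have t := swap_mem hq' hEv hv
          rwa [hXq] at t
        have hnu : WN (rl (swap E q) (rl (swap q h) z)) := WN_rl _ hnv
        by_cases hEB : E ∈ B
        · have e1 := rp_q_B hq' hqA hAB hEv hEA hEB k 2 hv
          rw [hXq] at e1
          rw [e1, if_pos (hBC hEB), add_zero]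
          have g := card_lt3 (A := A) hE hEB hEA
          have e2 : k + 2 - 1 = k - 1 + 2 := by ring
          rw [e2]
          exact two_pos hAB (by omega) (by norm_num) (by omega) hu hnu
        · have e1 := rp_q_O hq' hqA hAB hEv hEB k 2 hv
          rw [hXq] at e1
          rw [e1]
          refine WN.add (WN_Hop3 A (k - 1) (Hop_mem (B.erase q) 2 hu) (WN_Hop3 _ _ hu hnu)) ?_
          by_cases hEC : E ∈ C
          · rw [if_pos hEC]
            exact WN.zero
          · rw [if_neg hEC]
            have hqZ : q ∈ (insert h Y).erase E := Finset.mem_erase.2 ⟨Ne.symm hEq, hqX⟩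
            have g := card_le3 (A := A) (B := B) (Finset.erase_subset E (insert h Y))
            exact rho_pos hqA hAB hqZ (by omega) (by norm_num) (swap_mem hh hEY hz) (WN_rl _ hn)

/-- the first letter is in `B \ A` -/
theorem tau_head_bb {n : ℕ} (ih : TauIH n α) (hh : h ∉ Y) (hYc : Y.card = n) (hqA : q ∈ A)
    (hAB : A ⊆ B) (hBC : B ⊆ C) (hq : q ∈ Y) (hhB : h ∈ B) (hhA : h ∉ A) {k : ℤ}
    (hk : (((B \ A) ∩ insert h Y).card : ℤ) + 1 ≤ k) (h1 : ((B \ A) ∩ insert h Y).card ≤ 1)
    (h2 : ((C \ B) ∩ insert h Y).card ≤ 1) {z : Wd α} (hz : z ∈ WS Y) (hn : WN z)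
    (hE : E ∈ insert h Y) : WN (pr E (tauk (insert h Y) A B C q k (cns h z))) := by
  have hhC : h ∈ C := hBC hhB
  have hy : Hop (C.erase q) 1 z ∈ WS Y := Hop_mem _ _ hz
  have hny : WN (Hop (C.erase q) 1 z) := WN_Hop3 _ _ hz hn
  have hsub : Y ⊆ insert h Y := Finset.subset_insert _ _
  have hhq : h ≠ q := ne3 hh hq
  have hqX : q ∈ insert h Y := Finset.mem_insert_of_mem hq
  have hv : rl (swap q h) z ∈ WS ((insert h Y).erase q) := swap_mem hh hq hz
  have hnv : WN (rl (swap q h) z) := WN_rl _ hn
  have hq' : q ∉ (insert h Y).erase q := Finset.notMem_erase _ _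
  have hXq : insert q ((insert h Y).erase q) = insert h Y := Finset.insert_erase hqX
  have hhs : h ∈ B \ A := Finset.mem_sdiff.2 ⟨hhB, hhA⟩
  have hs : (B \ A) ∩ insert h Y = {h} := by
    have hm : h ∈ (B \ A) ∩ insert h Y := Finset.mem_inter.2 ⟨hhs, Finset.mem_insert_self _ _⟩
    refine Finset.Subset.antisymm (fun x hx => ?_) (Finset.singleton_subset_iff.2 hm)
    exact Finset.mem_singleton.2 (Finset.card_le_one.1 h1 x hx h hm)
  have hk2 : 2 ≤ k := by
    rw [hs, Finset.card_singleton] at hk
    push_cast at hk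
    omega
  have hYe : (B \ A) ∩ Y = ∅ := by
    have e := inter_ins' (Y := Y) hhs
    rw [hs] at e
    rw [Finset.eq_empty_iff_forall_notMem]
    intro x hx
    have hx' : x ∈ ({h} : Finset α) := e ▸ Finset.mem_insert_of_mem hx
    rw [Finset.mem_singleton] at hx'
    subst hx'
    exact hh (Finset.mem_inter.1 hx).2
  rw [tau_pr hh hqA hAB hBC hq k hz hE, if_pos hhC]
  rcases Finset.mem_insert.1 hE with rfl | hEY
  · rw [rp_b_self hh hqA hAB hq hhA hhB k 2 hy, rp_b_self hh hqA hAB hq hhA hhB k 3 hz,
      if_pos hhC, add_zero]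
    have g2 := card_le3 (A := B) (B := C) hsub
    have g1 : ((B \ A) ∩ Y).card = 0 := by rw [hYe, Finset.card_empty]
    have p1 := ih Y hYc A B C q k hqA hAB hBC hq (by omega) (by omega) (by omega) z hz hn
    have e1 := rp_q_B (E := E) hq' hqA hAB
      (Finset.mem_erase.2 ⟨hhq, Finset.mem_insert_self _ _⟩) hhA hhB k 2 hv
    rw [hXq, rl_sw2] at e1
    rw [e1]
    have p2 := two_pos (X := Y) hAB (a := k - 1) (b := 1) (by omega) (by norm_num) (by omega)
      hy hny
    have p3 := WN.add p1 p2
    unfold tauk at p3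
    have c1 : k + 2 - 2 = k - 1 + 1 := by ring
    have c2 : k + 3 - 2 = k + 2 - 1 := by ring
    have c3 : (2 : ℤ) - 1 = 1 := by norm_num
    have c4 : (3 : ℤ) - 1 = 2 := by norm_num
    rw [c1, c2, c3, c4]
    convert p3 using 1
    abel
  · have hEh : E ≠ h := fun h' => hh (h' ▸ hEY)
    have gX := card_le3 (A := A) (B := B) (Finset.erase_subset E (insert h Y))
    have c3 : (2 : ℤ) - 1 = 1 := by norm_num
    have c4 : (3 : ℤ) - 1 = 2 := by norm_num
    by_cases hEq : E = q
    · subst hEq
      have e1 := rp_q_self hq' hqA hAB k 2 hv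
      rw [hXq] at e1
      rw [rp_to_q hh hqA hAB hq hhB k 2 hy, rp_to_q hh hqA hAB hq hhB k 3 hz, e1,
        if_pos (hBC (hAB hqA)), add_zero, c3, c4, sub_add_cancel]
      exact two_er hAB (Finset.notMem_erase _ _) (by omega) (by norm_num) (by omega)
        (swap_mem hh hq hy) (WN_rl _ hny)
    · have hEv : E ∈ (insert h Y).erase q := Finset.mem_erase.2 ⟨hEq, hE⟩
      by_cases hEA : E ∈ A
      · have e1 := rp_q_A hq' hqA hAB hEv hEA k 2 hv
        rw [hXq] at e1
        rw [rp_A hh hqA hAB hq hEY hEq hEA k 2 hy, rp_A hh hqA hAB hq hEY hEq hEA k 3 hz, e1,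
          if_pos (hBC (hAB hEA)), add_zero, sub_zero, add_zero]
        exact WN.zero
      · have hEB : E ∉ B := by
          intro hEB
          have hm : E ∈ (B \ A) ∩ insert h Y :=
            Finset.mem_inter.2 ⟨Finset.mem_sdiff.2 ⟨hEB, hEA⟩, hE⟩
          rw [hs, Finset.mem_singleton] at hm
          exact hEh hm
        have e1 := rp_q_O hq' hqA hAB hEv hEB k 2 hv
        rw [hXq] at e1
        have hqZ : q ∈ (insert h Y).erase E := Finset.mem_erase.2 ⟨Ne.symm hEq, hqX⟩
        have hhZ : h ∈ (insert h Y).erase E :=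
          Finset.mem_erase.2 ⟨Ne.symm hEh, Finset.mem_insert_self _ _⟩
        have hw : rl (swap E h) z ∈ WS ((insert h Y).erase E) := swap_mem hh hEY hz
        have hnw : WN (rl (swap E h) z) := WN_rl _ hn
        have hyE : rl (swap E h) (Hop (C.erase q) 1 z) ∈ WS ((insert h Y).erase E) :=
          swap_mem hh hEY hy
        have hnyE : WN (rl (swap E h) (Hop (C.erase q) 1 z)) := WN_rl _ hny
        have s1 : rl (swap E q) (rl (swap q h) z) = rl (swap q h) (rl (swap E h) z) := by
          rw [rl_rl, rl_rl, sw1 hEh (Ne.symm hhq) hEq]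
        have hsE : (B \ A) ∩ (insert h Y).erase E = {h} := by
          rw [Finset.inter_erase, hs, Finset.erase_eq_of_notMem]
          rw [Finset.mem_singleton]
          exact hEh
        rw [rp_b_O hh hqA hAB hq hEY hhA hhB hEB k 2 hy, rp_b_O hh hqA hAB hq hEY hhA hhB hEB k 3 hz,
          e1, s1, c3, c4]
        have c5 : k + 2 - 2 = k := by ring
        have c6 : k + 3 - 2 = k + 1 := by ring
        rw [c5, c6]
        -- the last term
        have p0 : WN (Hop A (k - 1) (Hop (B.erase q) 1
            (rl (swap q h) (rl (swap E h) (Hop (C.erase q) 1 z))))) :=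
          WN_Hop3 A (k - 1) (Hop_mem (B.erase q) 1 (rl_swap_mem hqZ hhZ hyE))
            (WN_Hop3 _ _ (rl_swap_mem hqZ hhZ hyE) (WN_rl _ hnyE))
        have gC : (((C.erase q \ A.erase q) ∩ (insert h Y).erase E).card : ℤ) ≤ k + 1 := by
          have g1 := card_er3 ((insert h Y).erase E) A C q
          have g2 := card_le3 (A := A) (B := C) (Finset.erase_subset E (insert h Y))
          have g3 : ((C \ A) ∩ insert h Y).card ≤ ((C \ B) ∩ insert h Y).card +
              ((B \ A) ∩ insert h Y).card := by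
            rw [← Finset.card_union_add_card_inter]
            refine le_trans (Finset.card_le_card ?_) (Nat.le_add_right _ _)
            intro x hx
            simp only [Finset.mem_union, Finset.mem_inter, Finset.mem_sdiff] at hx ⊢
            tauto
          omega
        by_cases hEC : E ∈ C
        · rw [if_pos hEC, add_zero]
          have hEq' : E ∈ C.erase q := Finset.mem_erase.2 ⟨hEq, hEC⟩
          have hhC' : h ∈ C.erase q := Finset.mem_erase.2 ⟨hhq, hhC⟩
          have eC : rl (swap E h) (Hop (C.erase q) 1 z) =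
              Hop (C.erase q) 1 (rl (swap E h) z) := cj_both3 hh hhC' hEq' 1 hz
          have eB : Hop (C.erase q) 1 (rl (swap E h) z) = Hop (B.erase q) 1 (rl (swap E h) z) := by
            refine Hop_congr (X := (insert h Y).erase E) (fun x hx => ?_) 1 hw
            rw [Finset.mem_erase, Finset.mem_erase]
            refine ⟨fun h' => ⟨h'.1, ?_⟩, fun h' => ⟨h'.1, hBC h'.2⟩⟩
            by_contra hxB
            rw [Finset.mem_erase] at hx
            have m1 : x ∈ (C \ B) ∩ insert h Y :=
              Finset.mem_inter.2 ⟨Finset.mem_sdiff.2 ⟨h'.2, hxB⟩, hx.2⟩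
            have m2 : E ∈ (C \ B) ∩ insert h Y :=
              Finset.mem_inter.2 ⟨Finset.mem_sdiff.2 ⟨hEC, hEB⟩, hE⟩
            exact hx.1 (Finset.card_le_one.1 h2 x m1 E m2)
          have t := tau_one hqA hAB hqZ k hw
          have p1 : WN (R3 A B B k 1 1 (rl (swap E h) z)) := by
            refine R3_pos (X := (insert h Y).erase E) hAB (Finset.Subset.refl B) (by omega)
              (by norm_num) (by norm_num) ?_ (fun _ => by omega) (fun h' => absurd rfl h') hw hnw
            rw [Finset.sdiff_self, Finset.empty_inter, Finset.card_empty]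
            norm_num
          rw [← t] at p1
          have p2 := two_pos (X := (insert h Y).erase E)
            (Finset.erase_subset_erase q (hAB.trans hBC)) (a := k + 1)
            (b := 1) (by omega) (by norm_num) gC hw hnw
          have p3 := WN.add (WN.add p1 p2) p0
          unfold rho at p3
          rw [hsE, Finset.sum_singleton, Finset.sum_singleton, ← eB, ← eC] at p3
          have c7 : k + 1 + 1 = k + 2 := by ring
          have c8 : k + 1 - 1 = k := by ring
          have c9 : k + 2 - 1 = k + 1 := by ring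
          rw [c7, c8, c9] at p3
          convert p3 using 1
          abel
        · rw [if_neg hEC]
          have hEC' : E ∉ C.erase q := fun h' => hEC (Finset.mem_of_mem_erase h')
          have eC : rl (swap E h) (Hop (C.erase q) 1 z) =
              Hop ((C.erase q).erase h) 1 (rl (swap E h) z) := cj_out3 hh hEC' 1 hz
          have p1 := rho_pos (X := (insert h Y).erase E) hqA hAB hqZ (k := k) (e := 1) (by omega)
            (by norm_num) hyE hnyE
          have hAC' : A.erase q ⊆ (C.erase q).erase h := by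
            intro x hx
            rw [Finset.mem_erase] at hx
            refine Finset.mem_erase.2 ⟨fun h' => hhA (h' ▸ hx.2), Finset.mem_erase.2 ⟨hx.1, ?_⟩⟩
            exact hBC (hAB hx.2)
          have p2 := two_pos (X := (insert h Y).erase E) hAC' (a := k + 1)
            (b := 1) (by omega) (by norm_num) ?_ hw hnw
          · have p3 := WN.add (WN.add p1 p2) p0
            unfold rho at p3 ⊢
            rw [hsE, Finset.sum_singleton, ← eC] at p3
            rw [hsE, Finset.sum_singleton]
            have c7 : k + 1 + 1 = k + 2 := by ring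
            have c8 : k + 1 - 1 = k := by ring
            have c9 : k + 2 - 1 = k + 1 := by ring
            rw [c7, c8] at p3
            rw [c9]
            convert p3 using 1
            abel
          · refine le_trans ?_ gC
            refine Int.ofNat_le.2 (Finset.card_le_card ?_)
            exact Finset.inter_subset_inter_right
              (Finset.sdiff_subset_sdiff (Finset.erase_subset _ _) (Finset.Subset.refl _))

/-- the first letter is not in `A` -/
theorem tau_head_b {n : ℕ} (ih : TauIH n α) (hh : h ∉ Y) (hYc : Y.card = n) (hqA : q ∈ A)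
    (hAB : A ⊆ B) (hBC : B ⊆ C) (hq : q ∈ Y) (hhA : h ∉ A) {k : ℤ}
    (hk : (((B \ A) ∩ insert h Y).card : ℤ) + 1 ≤ k) (h1 : ((B \ A) ∩ insert h Y).card ≤ 1)
    (h2 : ((C \ B) ∩ insert h Y).card ≤ 1) {z : Wd α} (hz : z ∈ WS Y) (hn : WN z)
    (hE : E ∈ insert h Y) : WN (pr E (tauk (insert h Y) A B C q k (cns h z))) := by
  by_cases hhB : h ∈ B
  · exact tau_head_bb ih hh hYc hqA hAB hBC hq hhB hhA hk h1 h2 hz hn hE
  · by_cases hhC : h ∈ C
    · exact tau_head_c ih hh hYc hqA hAB hBC hq hhC hhB hk h1 h2 hz hn hE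
    · exact tau_head_o ih hh hYc hqA hAB hBC hq hhC hk h1 h2 hz hn hE

end headb

end H50R
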